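import Pool.Agent.helper60.FL.GE7
import Pool.Agent.FL.XDC

/-!
# MP_f09395_gt, space (2): E-transfer to functions given on the base only
-/

noncomputable section

namespace Pool.Agent.FL.S2

open scoped Matrix ContDiff
open Filter Topology

theorem differentiableAt_comp_uA {f : R9 → ℝ} {z : R6} (hf : DifferentiableAt ℝ f (uA z)) :
    DifferentiableAt ℝ (fun w => f (uA w)) z :=
  (hf.hasFDerivAt.comp z (hasFDerivAt_uA z)).differentiableAt

theorem differentiableAt_comp_uB {f : R9 → ℝ} {z : R6} (hf : DifferentiableAt ℝ f (uB z))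
    (h : z.1 ≠ 0) : DifferentiableAt ℝ (fun w => f (uB w)) z :=
  (hf.hasFDerivAt.comp z (differentiableAt_uB h).hasFDerivAt).differentiableAt

/-- **E-transfer at wall A** -/
theorem ED_uA {v f : R9 → ℝ} {z : R6} (hv : PhiM v) (hf : DifferentiableAt ℝ f (uA z))
    (hfi : ∀ (t : ℝ) (u : R9), f (rotH t u) = f u) {F : R6 → ℝ} (hF : DifferentiableAt ℝ F z)
    (hz : z ∈ base) (hz' : z ∈ U6) (h : ∀ᶠ w in 𝓝 z, w ∈ base → f (uA w) = F w) :
    ED v f (uA z) = XD (fun w => v (uA w)) F z := by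
  have _ := hz'
  have hv' := GE7_diff hv.smooth (uA_ne hz)
  have hV := differentiableAt_comp_uA hv'
  rw [transfer_A' hv' hf hv.inv hfi hz.1]
  exact (XD_congr hz hV hV (differentiableAt_comp_uA hf) hF
    (Filter.Eventually.of_forall fun _ _ => rfl) h).2

/-- **E-transfer at wall B** -/
theorem ED_uB {v f : R9 → ℝ} {z : R6} (hv : PhiM v) (hf : DifferentiableAt ℝ f (uB z))
    (hfi : ∀ (t : ℝ) (u : R9), f (rotH t u) = f u) {F : R6 → ℝ} (hF : DifferentiableAt ℝ F z)
    (hz : z ∈ base) (hz' : z ∈ U6) (h : ∀ᶠ w in 𝓝 z, w ∈ base → f (uB w) = F w) :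
    ED v f (uB z) = Real.sqrt 2 * XD (fun w => v (uB w)) F z := by
  have hv' := GE7_diff hv.smooth (uB_ne hz'.1)
  have hV := differentiableAt_comp_uB hv' hz'.1
  rw [transfer_B' hv' hf hv.inv hfi hz.1 hz.2 hz'.1]
  rw [(XD_congr hz hV hV (differentiableAt_comp_uB hf hz'.1) hF
    (Filter.Eventually.of_forall fun _ _ => rfl) h).2]

end Pool.Agent.FL.S2
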