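import Pool.Agent.FL.S2Core

/-!
# MP_f09395_gt, space (2), GE7: transfer of the Euler field to the reduced walls
-/

set_option linter.unusedSectionVars false
set_option linter.unusedSimpArgs false

noncomputable section

namespace Pool.Agent.FL.S2

open Matrix

theorem GE7_cr0 (a b : R3) : (a ⨯₃ b) 0 = a 1 * b 2 - a 2 * b 1 := by
  rw [cross_apply]; rfl

theorem GE7_cr1 (a b : R3) : (a ⨯₃ b) 1 = a 2 * b 0 - a 0 * b 2 := by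
  rw [cross_apply]; rfl

theorem GE7_cr2 (a b : R3) : (a ⨯₃ b) 2 = a 0 * b 1 - a 1 * b 0 := by
  rw [cross_apply]; rfl

theorem GE7_ext3 {a b : R3} (h0 : a 0 = b 0) (h1 : a 1 = b 1) (h2 : a 2 = b 2) : a = b := by
  ext i; fin_cases i <;> assumption

/-! ### vector identities -/

theorem GE7_algN (p q η : R3) : (q ⨯₃ p) ⨯₃ η = (q ⬝ᵥ η) • p - (p ⬝ᵥ η) • q := by
  apply GE7_ext3 <;>
    simp only [GE7_cr0, GE7_cr1, GE7_cr2, vec3_dotProduct, Pi.sub_apply, Pi.smul_apply,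
      smul_eq_mul] <;> ring

theorem GE7_algP (p q α ξ η : R3) (ρ c d : ℝ) :
    p ⨯₃ (α + ρ • ξ - c • p + ρ • (η ⨯₃ q) - d • p) + q ⨯₃ (ρ • (p ⨯₃ η)) =
      p ⨯₃ α + ρ • (p ⨯₃ ξ) + ρ • ((q ⬝ᵥ η) • p - (p ⬝ᵥ η) • q) := by
  apply GE7_ext3 <;>
    simp only [GE7_cr0, GE7_cr1, GE7_cr2, vec3_dotProduct, Pi.add_apply, Pi.sub_apply,
      Pi.smul_apply, smul_eq_mul] <;> ring

theorem GE7_algK (p q ξ : R3) (hpq : p ⬝ᵥ q = 0) :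
    (q ⬝ᵥ q) • (p ⨯₃ ξ) = (ξ ⬝ᵥ (q ⨯₃ p)) • q - (ξ ⬝ᵥ q) • (q ⨯₃ p) := by
  rw [vec3_dotProduct] at hpq
  apply GE7_ext3 <;>
    simp only [GE7_cr0, GE7_cr1, GE7_cr2, vec3_dotProduct, Pi.add_apply, Pi.sub_apply,
      Pi.smul_apply, smul_eq_mul]
  · linear_combination (-(ξ 1 * q 2 - ξ 2 * q 1)) * hpq
  · linear_combination (-(ξ 2 * q 0 - ξ 0 * q 2)) * hpq
  · linear_combination (-(ξ 0 * q 1 - ξ 1 * q 0)) * hpq

theorem GE7_pP {p q α ξ η P : R3} {ρ : ℝ} (hpq : p ⬝ᵥ q = 0)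
    (hP : P = p ⨯₃ α + ρ • (p ⨯₃ ξ) + ρ • ((q ⬝ᵥ η) • p - (p ⬝ᵥ η) • q)) :
    p ⬝ᵥ P = ρ * (p ⬝ᵥ p) * (q ⬝ᵥ η) := by
  rw [hP]
  simp only [GE7_cr0, GE7_cr1, GE7_cr2, vec3_dotProduct, Pi.add_apply, Pi.sub_apply,
    Pi.smul_apply, smul_eq_mul] at hpq ⊢
  linear_combination (-(ρ * (p 0 * η 0 + p 1 * η 1 + p 2 * η 2))) * hpq

theorem GE7_algX (p q α ξ η : R3) (ρ : ℝ) (hρ : ρ ^ 2 * (p ⬝ᵥ p) = 1) (hpq : p ⬝ᵥ q = 0)
    (h1 : p ⬝ᵥ p + q ⬝ᵥ q = 1) (hη : p ⬝ᵥ η = ξ ⬝ᵥ (q ⨯₃ p)) (P : R3)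
    (hP : P = p ⨯₃ α + ρ • (p ⨯₃ ξ) + ρ • ((q ⬝ᵥ η) • p - (p ⬝ᵥ η) • q)) :
    p ⨯₃ ξ + ρ • (p ⨯₃ α) = ρ • P - (ρ ^ 3 * (p ⬝ᵥ P)) • p + (ρ ^ 2 * (ξ ⬝ᵥ q)) • (q ⨯₃ p) := by
  have k1 := GE7_pP hpq hP
  have k2 := GE7_algK p q ξ hpq
  have k3 : q ⬝ᵥ q = 1 - p ⬝ᵥ p := by linarith
  rw [k1, hP, hη]
  rw [k3] at k2
  have k4 : p ⨯₃ ξ = ρ ^ 2 • (p ⨯₃ ξ - (ξ ⬝ᵥ (q ⨯₃ p)) • q + (ξ ⬝ᵥ q) • (q ⨯₃ p)) := by
    have k5 : (p ⬝ᵥ p) • (p ⨯₃ ξ) = p ⨯₃ ξ - (ξ ⬝ᵥ (q ⨯₃ p)) • q + (ξ ⬝ᵥ q) • (q ⨯₃ p) := by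
      rw [sub_smul, one_smul] at k2
      rw [← sub_eq_zero] at k2 ⊢
      rw [← neg_eq_zero, ← k2]
      abel
    rw [← k5, smul_smul, hρ, one_smul]
  have k6 : ρ ^ 3 * (ρ * (p ⬝ᵥ p) * (q ⬝ᵥ η)) = ρ ^ 2 * (q ⬝ᵥ η) := by
    linear_combination (ρ ^ 2 * (q ⬝ᵥ η)) * hρ
  rw [k6]
  conv_lhs => rw [k4]
  module

theorem GE7_algY (p q α ξ η : R3) (ρ : ℝ) (hρ : ρ ^ 2 * (p ⬝ᵥ p) = 1) (hpq : p ⬝ᵥ q = 0)
    (P Vp : R3)
    (hP : P = p ⨯₃ α + ρ • (p ⨯₃ ξ) + ρ • ((q ⬝ᵥ η) • p - (p ⬝ᵥ η) • q))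
    (hVp : Vp = α + ρ • ξ - (ρ ^ 3 * (ξ ⬝ᵥ p)) • p + ρ • (η ⨯₃ q)
      - (ρ ^ 3 * (η ⬝ᵥ (q ⨯₃ p))) • p) :
    p ⨯₃ η + ρ • ((q ⨯₃ p) ⨯₃ α) =
      ρ • ((p ⨯₃ (ρ • (p ⨯₃ η)) + q ⨯₃ Vp) ⨯₃ p + q ⨯₃ P) - (ρ ^ 3 * (p ⬝ᵥ P)) • (q ⨯₃ p)
        - (ρ ^ 2 * (ξ ⬝ᵥ q)) • p := by
  have k1 := GE7_pP hpq hP
  have k2 : q ⨯₃ P = (q ⬝ᵥ α) • p + (ρ * (ξ ⬝ᵥ q)) • p + (ρ * (q ⬝ᵥ η)) • (q ⨯₃ p) := by
    rw [hP]
    simp only [vec3_dotProduct] at hpq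
    apply GE7_ext3 <;>
      simp only [GE7_cr0, GE7_cr1, GE7_cr2, vec3_dotProduct, Pi.add_apply, Pi.sub_apply,
        Pi.smul_apply, smul_eq_mul]
    · linear_combination (-(α 0) - ρ * ξ 0) * hpq
    · linear_combination (-(α 1) - ρ * ξ 1) * hpq
    · linear_combination (-(α 2) - ρ * ξ 2) * hpq
  have k3 : Vp ⬝ᵥ p = α ⬝ᵥ p := by
    have e1 : Vp ⬝ᵥ p = α ⬝ᵥ p + ρ * (ξ ⬝ᵥ p) - (ρ ^ 3 * (ξ ⬝ᵥ p)) * (p ⬝ᵥ p)
        + ρ * (η ⬝ᵥ (q ⨯₃ p)) - (ρ ^ 3 * (η ⬝ᵥ (q ⨯₃ p))) * (p ⬝ᵥ p) := by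
      rw [hVp]
      simp only [GE7_cr0, GE7_cr1, GE7_cr2, vec3_dotProduct, Pi.add_apply, Pi.sub_apply,
        Pi.smul_apply, smul_eq_mul]
      ring
    rw [e1]
    linear_combination (-(ρ * (ξ ⬝ᵥ p)) - ρ * (η ⬝ᵥ (q ⨯₃ p))) * hρ
  have k4 : (q ⨯₃ Vp) ⨯₃ p = -(α ⬝ᵥ p) • q := by
    rw [GE7_algN, k3, dotProduct_comm q p, hpq, zero_smul, zero_sub, neg_smul]
  have k5 : (p ⨯₃ (ρ • (p ⨯₃ η))) ⨯₃ p = (ρ * (p ⬝ᵥ p)) • (p ⨯₃ η) := by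
    apply GE7_ext3 <;>
      simp only [GE7_cr0, GE7_cr1, GE7_cr2, vec3_dotProduct, Pi.smul_apply, smul_eq_mul] <;> ring
  have k6 : ρ ^ 3 * (ρ * (p ⬝ᵥ p) * (q ⬝ᵥ η)) = ρ ^ 2 * (q ⬝ᵥ η) := by
    linear_combination (ρ ^ 2 * (q ⬝ᵥ η)) * hρ
  have k7 : p ⨯₃ η = (ρ ^ 2 * (p ⬝ᵥ p)) • (p ⨯₃ η) := by rw [hρ, one_smul]
  rw [k1, k6, k2, map_add, LinearMap.add_apply, k4, k5, GE7_algN, dotProduct_comm p α]
  conv_lhs => rw [k7]
  module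

/-! ### derivatives -/

/-- the derivative in terms of the gradient -/
theorem fderiv_eq_dot9 (f : R9 → ℝ) (u w : R9) : fderiv ℝ f u w = dot9 (grad9 f u) w := by
  have h : w = ∑ i, w.1 i • ((Pi.single i 1, 0, 0) : R9)
      + ∑ i, w.2.1 i • ((0, Pi.single i 1, 0) : R9)
      + ∑ i, w.2.2 i • ((0, 0, Pi.single i 1) : R9) := by
    refine Prod.ext ?_ (Prod.ext ?_ ?_)
    · apply GE7_ext3 <;> simp [Fin.sum_univ_three]
    · apply GE7_ext3 <;> simp [Fin.sum_univ_three]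
    · apply GE7_ext3 <;> simp [Fin.sum_univ_three]
  conv_lhs => rw [h]
  simp only [map_add, map_sum, map_smul, smul_eq_mul, dot9, grad9, vec3_dotProduct,
    Fin.sum_univ_three]
  ring

/-- the derivative along the orbits of `H` vanishes -/
theorem fderiv_rot {f : R9 → ℝ} {u : R9} (hf : DifferentiableAt ℝ f u)
    (jf : ∀ (t : ℝ) (w : R9), f (rotH t w) = f w) : fderiv ℝ f u (rot u) = 0 := by
  have h0 : rotH 0 u = u := by simp [rotH]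
  have hc : HasDerivAt (fun t => rotH t u) (rot u) 0 := by
    have h1 : HasDerivAt (fun t : ℝ => Real.cos t • u.2.1 - Real.sin t • u.2.2) (-u.2.2) 0 := by
      exact (((Real.hasDerivAt_cos 0).smul_const u.2.1).fun_sub
        ((Real.hasDerivAt_sin 0).smul_const u.2.2)).congr_deriv (by simp)
    have h2 : HasDerivAt (fun t : ℝ => Real.sin t • u.2.1 + Real.cos t • u.2.2) (u.2.1) 0 := by
      exact (((Real.hasDerivAt_sin 0).smul_const u.2.1).fun_add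
        ((Real.hasDerivAt_cos 0).smul_const u.2.2)).congr_deriv (by simp)
    exact (hasDerivAt_const (0 : ℝ) u.1).prodMk (h1.prodMk h2)
  have hf' : HasFDerivAt f (fderiv ℝ f u) (rotH 0 u) := by rw [h0]; exact hf.hasFDerivAt
  have h3 := hf'.comp_hasDerivAt (0 : ℝ) hc
  have h4 : (f ∘ fun t => rotH t u) = fun _ => f u := funext fun t => jf t u
  rw [h4] at h3
  exact h3.unique (hasDerivAt_const _ _)


theorem hasFDerivAt_uA (z : R6) : HasFDerivAt uA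
    ((ContinuousLinearMap.fst ℝ R3 R3).prod ((ContinuousLinearMap.snd ℝ R3 R3).prod 0)) z :=
  hasFDerivAt_fst.prodMk (hasFDerivAt_snd.prodMk (hasFDerivAt_const _ _))

theorem fderiv_uA {f : R9 → ℝ} {z : R6} (hf : DifferentiableAt ℝ f (uA z)) (w : R6) :
    fderiv ℝ (fun w => f (uA w)) z w = fderiv ℝ f (uA z) (w.1, w.2, 0) := by
  have h := hf.hasFDerivAt.comp z (hasFDerivAt_uA z)
  have h2 : fderiv ℝ (fun w => f (uA w)) z = (fderiv ℝ f (uA z)).comp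
    ((ContinuousLinearMap.fst ℝ R3 R3).prod ((ContinuousLinearMap.snd ℝ R3 R3).prod 0)) := h.fderiv
  rw [h2]
  rfl

/-- at wall A the gradient in `y` is orthogonal to `q`, and zero for `q = 0` -/
theorem gy_uA {f : R9 → ℝ} {z : R6} (hf : DifferentiableAt ℝ f (uA z))
    (jf : ∀ (t : ℝ) (w : R9), f (rotH t w) = f w) :
    (grad9 f (uA z)).2.2 ⬝ᵥ z.2 = 0 ∧ (z.2 = 0 → (grad9 f (uA z)).2.2 = 0) := by
  constructor
  · have h := fderiv_rot hf jf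
    rw [fderiv_eq_dot9] at h
    simpa [dot9, rot, uA] using h
  · intro hz
    ext i
    have hu : rotH Real.pi (uA z) = uA z := by simp [rotH, uA, hz]
    have h1 : HasDerivAt (fun t : ℝ => uA z + t • ((0, 0, Pi.single i 1) : R9))
        (0, 0, Pi.single i 1) 0 := by
      have := ((hasDerivAt_id (0 : ℝ)).smul_const ((0, 0, Pi.single i 1) : R9)).const_add (uA z)
      simpa using this
    have h2 : HasDerivAt (fun t : ℝ => uA z + t • ((0, 0, -Pi.single i 1) : R9))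
        (0, 0, -Pi.single i 1) 0 := by
      have := ((hasDerivAt_id (0 : ℝ)).smul_const ((0, 0, -Pi.single i 1) : R9)).const_add (uA z)
      simpa using this
    have hf' : HasFDerivAt f (fderiv ℝ f (uA z)) (uA z + (0 : ℝ) • ((0, 0, Pi.single i 1) : R9)) := by
      rw [zero_smul, add_zero]; exact hf.hasFDerivAt
    have hf'' : HasFDerivAt f (fderiv ℝ f (uA z))
        (uA z + (0 : ℝ) • ((0, 0, -Pi.single i 1) : R9)) := by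
      rw [zero_smul, add_zero]; exact hf.hasFDerivAt
    have h3 := hf'.comp_hasDerivAt (0 : ℝ) h1
    have h4 := hf''.comp_hasDerivAt (0 : ℝ) h2
    have h5 : (f ∘ fun t : ℝ => uA z + t • ((0, 0, Pi.single i 1) : R9)) =
        f ∘ fun t : ℝ => uA z + t • ((0, 0, -Pi.single i 1) : R9) := by
      funext t
      simp only [Function.comp]
      rw [← jf Real.pi (uA z + t • ((0, 0, Pi.single i 1) : R9))]
      congr 1
      simp [rotH, uA, hz]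
    rw [h5] at h3
    have h6 := h3.unique h4
    have h7 : ((0, 0, -Pi.single i 1) : R9) = -((0, 0, Pi.single i 1) : R9) := by simp
    rw [h7, map_neg] at h6
    have h8 : fderiv ℝ f (uA z) (0, 0, Pi.single i 1) = 0 := by linarith
    simpa [grad9] using h8

/-- **E-transfer at wall A** -/
theorem transfer_A' {v f : R9 → ℝ} {z : R6} (hv : DifferentiableAt ℝ v (uA z))
    (hf : DifferentiableAt ℝ f (uA z)) (jv : ∀ (t : ℝ) (w : R9), v (rotH t w) = v w)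
    (jf : ∀ (t : ℝ) (w : R9), f (rotH t w) = f w) (hz : z.1 ⬝ᵥ z.2 = 0) :
    ED v f (uA z) = XD (fun w => v (uA w)) (fun w => f (uA w)) z := by
  have e1 : gp (fun w => v (uA w)) z = (grad9 v (uA z)).1 := by
    ext i
    simp only [gp, grad9]
    rw [fderiv_uA hv]
  have e2 : gq (fun w => v (uA w)) z = (grad9 v (uA z)).2.1 := by
    ext i
    simp only [gq, grad9]
    rw [fderiv_uA hv]
  obtain ⟨v1, v2⟩ := gy_uA hv jv
  obtain ⟨f1, f2⟩ := gy_uA hf jf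
  rw [ED, XD, fderiv_uA hf, XB, e1, e2, fderiv_eq_dot9, fderiv_eq_dot9]
  rcases h1 : grad9 v (uA z) with ⟨α, ξ, η⟩
  rcases h2 : grad9 f (uA z) with ⟨a, x, y⟩
  rw [h1] at v1 v2
  rw [h2] at f1 f2
  simp only at v1 v2 f1 f2 ⊢
  rw [eM, h1]
  simp only [br, uA, dot9]
  have h3 : y ⬝ᵥ (z.1 ⨯₃ η) = 0 := by
    by_cases hq : z.2 = 0
    · rw [f2 hq, zero_dotProduct]
    · have h4 : (y ⬝ᵥ (z.1 ⨯₃ η)) • z.2 = 0 := by
        have h5 : (y ⬝ᵥ (z.1 ⨯₃ η)) • z.2 = (y ⬝ᵥ z.2) • (z.1 ⨯₃ η) + (z.1 ⬝ᵥ z.2) • (η ⨯₃ y)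
            + (η ⬝ᵥ z.2) • (y ⨯₃ z.1) := by
          apply GE7_ext3 <;>
            simp only [GE7_cr0, GE7_cr1, GE7_cr2, vec3_dotProduct, Pi.add_apply, Pi.smul_apply,
              smul_eq_mul] <;> ring
        rw [h5, f1, v1, hz]
        simp
      exact (smul_eq_zero.1 h4).resolve_right hq
  have h6 : z.1 ⨯₃ ξ - α ⨯₃ z.2 = z.1 ⨯₃ ξ + z.2 ⨯₃ α := by
    rw [← cross_anticomm z.2 α, sub_neg_eq_add]
  rw [h6]
  simp only [map_zero, LinearMap.zero_apply, add_zero, sub_zero, dotProduct_zero]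
  rw [h3, add_zero]

/-! ### wall B -/

theorem n3_sq' (p : R3) : n3 p ^ 2 = p ⬝ᵥ p := by
  rw [n3, Real.sq_sqrt]
  rw [vec3_dotProduct]
  nlinarith [mul_self_nonneg (p 0), mul_self_nonneg (p 1), mul_self_nonneg (p 2)]

theorem dot_pos' {p : R3} (h : p ≠ 0) : 0 < p ⬝ᵥ p := by
  by_contra h0
  have h1 : p 0 * p 0 + p 1 * p 1 + p 2 * p 2 ≤ 0 := by
    rw [← vec3_dotProduct]; exact not_lt.1 h0
  have a0 := mul_self_nonneg (p 0)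
  have a1 := mul_self_nonneg (p 1)
  have a2 := mul_self_nonneg (p 2)
  refine h (GE7_ext3 ?_ ?_ ?_)
  · exact mul_self_eq_zero.1 (by linarith)
  · exact mul_self_eq_zero.1 (by linarith)
  · exact mul_self_eq_zero.1 (by linarith)

theorem n3_pos' {p : R3} (h : p ≠ 0) : 0 < n3 p := Real.sqrt_pos.2 (dot_pos' h)

/-- the derivative of the section over wall B -/
def DuB (z w : R6) : R9 :=
  (Real.sqrt 2)⁻¹ • ((w.1, (n3 z.1)⁻¹ • w.1 - ((n3 z.1)⁻¹ ^ 3 * (z.1 ⬝ᵥ w.1)) • z.1,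
    (n3 z.1)⁻¹ • (w.2 ⨯₃ z.1 + z.2 ⨯₃ w.1) - ((n3 z.1)⁻¹ ^ 3 * (z.1 ⬝ᵥ w.1)) • (z.2 ⨯₃ z.1)) : R9)

theorem hasDerivAt_line (p w : R3) : HasDerivAt (fun t : ℝ => p + t • w) w 0 := by
  have := ((hasDerivAt_id (0 : ℝ)).smul_const w).const_add p
  simpa using this

theorem hasDerivAt_rho {p : R3} (w : R3) (h : p ≠ 0) :
    HasDerivAt (fun t : ℝ => (n3 (p + t • w))⁻¹) (-((n3 p)⁻¹ ^ 3 * (p ⬝ᵥ w))) 0 := by
  have h1 : HasDerivAt (fun t : ℝ => p ⬝ᵥ p + t * (2 * (p ⬝ᵥ w)) + t ^ 2 * (w ⬝ᵥ w))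
      (2 * (p ⬝ᵥ w)) 0 := by
    have a1 := ((hasDerivAt_id (0 : ℝ)).mul_const (2 * (p ⬝ᵥ w))).const_add (p ⬝ᵥ p)
    have a2 := ((hasDerivAt_pow 2 (0 : ℝ)).mul_const (w ⬝ᵥ w))
    exact (a1.fun_add a2).congr_deriv (by simp)
  have h2 : (fun t : ℝ => (p + t • w) ⬝ᵥ (p + t • w)) =
      fun t : ℝ => p ⬝ᵥ p + t * (2 * (p ⬝ᵥ w)) + t ^ 2 * (w ⬝ᵥ w) := by
    funext t
    simp only [vec3_dotProduct, Pi.add_apply, Pi.smul_apply, smul_eq_mul]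
    ring
  rw [← h2] at h1
  have hp := dot_pos' h
  have hn := n3_pos' h
  have h3 := (h1.sqrt (by simpa using hp.ne')).inv (by simpa using (Real.sqrt_pos.2 hp).ne')
  have h4 : (fun t : ℝ => (n3 (p + t • w))⁻¹) = (fun t : ℝ => √((p + t • w) ⬝ᵥ (p + t • w)))⁻¹ := by
    funext t
    simp [n3]
  rw [h4]
  refine h3.congr_deriv ?_
  have h5 : √(p ⬝ᵥ p) = n3 p := rfl
  simp only [zero_smul, add_zero, h5]
  field_simp

theorem hasDerivAt_uB {z : R6} (w : R6) (h : z.1 ≠ 0) :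
    HasDerivAt (fun t : ℝ => uB (z + t • w)) (DuB z w) 0 := by
  have h1 := hasDerivAt_line z.1 w.1
  have h2 := hasDerivAt_rho w.1 h
  have h3 : HasDerivAt (fun t : ℝ => (z.2 + t • w.2) ⨯₃ (z.1 + t • w.1))
      (w.2 ⨯₃ z.1 + z.2 ⨯₃ w.1) 0 := by
    have a0 : (fun t : ℝ => (z.2 + t • w.2) ⨯₃ (z.1 + t • w.1)) =
        fun t : ℝ => z.2 ⨯₃ z.1 + t • (w.2 ⨯₃ z.1 + z.2 ⨯₃ w.1) + t ^ 2 • (w.2 ⨯₃ w.1) := by
      funext t
      simp only [map_add, map_smul, LinearMap.add_apply, LinearMap.smul_apply, smul_add, smul_smul]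
      rw [pow_two]
      abel
    rw [a0]
    have a1 := ((hasDerivAt_id (0 : ℝ)).smul_const (w.2 ⨯₃ z.1 + z.2 ⨯₃ w.1)).const_add
      (z.2 ⨯₃ z.1)
    have a2 := ((hasDerivAt_pow 2 (0 : ℝ)).smul_const (w.2 ⨯₃ w.1))
    exact (a1.fun_add a2).congr_deriv (by simp)
  have h4 := h2.fun_smul h1
  have h5 := h2.fun_smul h3
  have h6 := (h1.prodMk (h4.prodMk h5)).fun_const_smul (Real.sqrt 2)⁻¹
  refine h6.congr_deriv ?_
  simp only [DuB, zero_smul, add_zero, neg_smul]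
  rw [sub_eq_add_neg, sub_eq_add_neg]

theorem differentiableAt_uB {z : R6} (h : z.1 ≠ 0) : DifferentiableAt ℝ uB z := by
  have hc : ∀ p q : R6 → R3, DifferentiableAt ℝ p z → DifferentiableAt ℝ q z →
      DifferentiableAt ℝ (fun w => p w ⨯₃ q w) z := by
    intro p q hp hq
    have hp' := fun i => differentiableAt_pi.1 hp i
    have hq' := fun i => differentiableAt_pi.1 hq i
    rw [differentiableAt_pi]
    intro i
    fin_cases i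
    · simp only [Fin.zero_eta, GE7_cr0]
      exact ((hp' 1).mul (hq' 2)).sub ((hp' 2).mul (hq' 1))
    · simp only [Fin.mk_one, GE7_cr1]
      exact ((hp' 2).mul (hq' 0)).sub ((hp' 0).mul (hq' 2))
    · simp only [Fin.reduceFinMk, GE7_cr2]
      exact ((hp' 0).mul (hq' 1)).sub ((hp' 1).mul (hq' 0))
  have h1 : DifferentiableAt ℝ (fun w : R6 => w.1 ⬝ᵥ w.1) z := by
    have a : (fun w : R6 => w.1 ⬝ᵥ w.1) =
        fun w : R6 => w.1 0 * w.1 0 + w.1 1 * w.1 1 + w.1 2 * w.1 2 := by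
      funext w; rw [vec3_dotProduct]
    have b := fun i => differentiableAt_pi.1 (differentiableAt_fst (𝕜 := ℝ) (p := z)) i
    rw [a]
    exact ((((b 0).mul (b 0)).add ((b 1).mul (b 1))).add ((b 2).mul (b 2)))
  have h2 : DifferentiableAt ℝ (fun w : R6 => (n3 w.1)⁻¹) z :=
    (h1.sqrt (dot_pos' h).ne').inv (n3_pos' h).ne'
  have h3 : DifferentiableAt ℝ (fun w : R6 => w.1) z := differentiableAt_fst
  have h4 := hc (fun w => w.2) (fun w => w.1) differentiableAt_snd differentiableAt_fst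
  exact ((h3.prodMk ((h2.smul h3).prodMk (h2.smul h4))).const_smul (Real.sqrt 2)⁻¹)

theorem fderiv_uB {f : R9 → ℝ} {z : R6} (hf : DifferentiableAt ℝ f (uB z)) (h : z.1 ≠ 0)
    (w : R6) : fderiv ℝ (fun w => f (uB w)) z w = fderiv ℝ f (uB z) (DuB z w) := by
  have hd := differentiableAt_uB h
  have h1 : fderiv ℝ (fun w => f (uB w)) z = (fderiv ℝ f (uB z)).comp (fderiv ℝ uB z) :=
    (hf.hasFDerivAt.comp z hd.hasFDerivAt).fderiv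
  have h2 : fderiv ℝ uB z w = DuB z w := by
    have h3 : HasFDerivAt uB (fderiv ℝ uB z) (z + (0 : ℝ) • w) := by
      rw [zero_smul, add_zero]; exact hd.hasFDerivAt
    have h4 : HasDerivAt (fun t : ℝ => z + t • w) w 0 := by
      have := ((hasDerivAt_id (0 : ℝ)).smul_const w).const_add z
      simpa using this
    have h5 := h3.comp_hasDerivAt (0 : ℝ) h4
    exact h5.unique (hasDerivAt_uB w h)
  rw [h1, ContinuousLinearMap.comp_apply, h2]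

theorem gp_uB {v : R9 → ℝ} {z : R6} (hv : DifferentiableAt ℝ v (uB z)) (h : z.1 ≠ 0) :
    gp (fun w => v (uB w)) z = (Real.sqrt 2)⁻¹ • ((grad9 v (uB z)).1 + (n3 z.1)⁻¹ •
      (grad9 v (uB z)).2.1 - ((n3 z.1)⁻¹ ^ 3 * ((grad9 v (uB z)).2.1 ⬝ᵥ z.1)) • z.1
      + (n3 z.1)⁻¹ • ((grad9 v (uB z)).2.2 ⨯₃ z.2)
      - ((n3 z.1)⁻¹ ^ 3 * ((grad9 v (uB z)).2.2 ⬝ᵥ (z.2 ⨯₃ z.1))) • z.1) := by
  have key : ∀ i, gp (fun w => v (uB w)) z i =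
      dot9 (grad9 v (uB z)) (DuB z (Pi.single i 1, 0)) := by
    intro i
    rw [gp, fderiv_uB hv h, fderiv_eq_dot9]
  apply GE7_ext3 <;>
    (rw [key]
     simp only [dot9, DuB, GE7_cr0, GE7_cr1, GE7_cr2, vec3_dotProduct, Pi.add_apply,
       Pi.sub_apply, Pi.smul_apply, smul_eq_mul, Prod.smul_mk, Pi.single_apply, Pi.zero_apply]
     simp
     ring)

theorem gq_uB {v : R9 → ℝ} {z : R6} (hv : DifferentiableAt ℝ v (uB z)) (h : z.1 ≠ 0) :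
    gq (fun w => v (uB w)) z =
      (Real.sqrt 2)⁻¹ • ((n3 z.1)⁻¹ • (z.1 ⨯₃ (grad9 v (uB z)).2.2)) := by
  have key : ∀ i, gq (fun w => v (uB w)) z i =
      dot9 (grad9 v (uB z)) (DuB z (0, Pi.single i 1)) := by
    intro i
    rw [gq, fderiv_uB hv h, fderiv_eq_dot9]
  apply GE7_ext3 <;>
    (rw [key]
     simp only [dot9, DuB, GE7_cr0, GE7_cr1, GE7_cr2, vec3_dotProduct, Pi.add_apply,
       Pi.sub_apply, Pi.smul_apply, smul_eq_mul, Prod.smul_mk, Pi.single_apply, Pi.zero_apply]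
     simp
     ring)

/-- **E-transfer at wall B** (with the factor `√2`) -/
theorem transfer_B' {v f : R9 → ℝ} {z : R6} (hv : DifferentiableAt ℝ v (uB z))
    (hf : DifferentiableAt ℝ f (uB z)) (jv : ∀ (t : ℝ) (w : R9), v (rotH t w) = v w)
    (jf : ∀ (t : ℝ) (w : R9), f (rotH t w) = f w) (hz : z.1 ⬝ᵥ z.2 = 0)
    (h1 : z.1 ⬝ᵥ z.1 + z.2 ⬝ᵥ z.2 = 1) (h : z.1 ≠ 0) :
    ED v f (uB z) = Real.sqrt 2 * XD (fun w => v (uB w)) (fun w => f (uB w)) z := by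
  have e1 := gp_uB hv h
  have e2 := gq_uB hv h
  have e3 := fderiv_rot hv jv
  have e4 := fderiv_rot hf jf
  rw [ED, XD, fderiv_uB hf h, XB, e1, e2]
  rcases hg : grad9 v (uB z) with ⟨α, ξ, η⟩
  obtain ⟨p, q⟩ := z
  simp only at hz h1 h ⊢
  have hn := n3_pos' h
  obtain ⟨ρ, hρ⟩ : ∃ ρ, ρ = (n3 p)⁻¹ := ⟨_, rfl⟩
  obtain ⟨s, hs⟩ : ∃ s, s = (Real.sqrt 2)⁻¹ := ⟨_, rfl⟩
  have hρ2 : ρ ^ 2 * (p ⬝ᵥ p) = 1 := by
    rw [← n3_sq', hρ, inv_pow, inv_mul_cancel₀ (by positivity)]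
  have hs0 : Real.sqrt 2 * s = 1 := by
    rw [hs, mul_inv_cancel₀ (by positivity)]
  have hs1 : s ≠ 0 := by
    rintro h0
    rw [h0, mul_zero] at hs0
    exact zero_ne_one hs0
  -- the rotation
  have hρ0 : ρ ≠ 0 := by
    rintro h0
    rw [h0] at hρ2
    norm_num at hρ2
  have hη : p ⬝ᵥ η = ξ ⬝ᵥ (q ⨯₃ p) := by
    rw [fderiv_eq_dot9, hg] at e3
    simp only [dot9, rot, uB, ← hρ, ← hs, Prod.smul_mk, dotProduct_zero, dotProduct_neg,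
      dotProduct_smul, smul_eq_mul, zero_add] at e3
    have h5 : s * ρ * (p ⬝ᵥ η - ξ ⬝ᵥ (q ⨯₃ p)) = 0 := by
      rw [dotProduct_comm p η]
      linear_combination e3
    have h6 := (mul_eq_zero.1 h5).resolve_left (mul_ne_zero hs1 hρ0)
    linarith
  obtain ⟨Vp, hVp⟩ : ∃ Vp, Vp = α + ρ • ξ - (ρ ^ 3 * (ξ ⬝ᵥ p)) • p + ρ • (η ⨯₃ q)
      - (ρ ^ 3 * (η ⬝ᵥ (q ⨯₃ p))) • p := ⟨_, rfl⟩
  obtain ⟨P, hP⟩ : ∃ P, P = p ⨯₃ α + ρ • (p ⨯₃ ξ) + ρ • ((q ⬝ᵥ η) • p - (p ⬝ᵥ η) • q) :=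
    ⟨_, rfl⟩
  have hP1 : p ⨯₃ Vp + q ⨯₃ (ρ • (p ⨯₃ η)) = P := by
    rw [hVp, hP, GE7_algP]
  have kX := GE7_algX p q α ξ η ρ hρ2 hz h1 hη P hP
  have kY := GE7_algY p q α ξ η ρ hρ2 hz P Vp hP hVp
  have kN := GE7_algN p q η
  rw [← hρ, ← hs, ← hVp]
  have key : eM v (uB (p, q)) = Real.sqrt 2 • DuB (p, q) (p ⨯₃ (s • Vp) + q ⨯₃ (s • ρ • (p ⨯₃ η)),
      p ⨯₃ (s • ρ • (p ⨯₃ η)) + q ⨯₃ (s • Vp)) - (ρ * (ξ ⬝ᵥ q)) • rot (uB (p, q)) := by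
    have hA : p ⨯₃ (s • Vp) + q ⨯₃ (s • ρ • (p ⨯₃ η)) = s • P := by
      rw [map_smul, map_smul, ← smul_add, hP1]
    have hB : p ⨯₃ (s • ρ • (p ⨯₃ η)) + q ⨯₃ (s • Vp) =
        s • (p ⨯₃ (ρ • (p ⨯₃ η)) + q ⨯₃ Vp) := by
      simp only [map_smul, smul_add]
    rw [eM, hg, hA, hB]
    have hS : ∀ w : R3, Real.sqrt 2 • s • w = w := fun w => by rw [smul_smul, hs0, one_smul]
    have hanti : ∀ w : R3, α ⨯₃ w = -(w ⨯₃ α) := fun w => (cross_anticomm w α).symm ▸ rfl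
    simp only [br, uB, DuB, rot, ← hρ, ← hs, Prod.smul_mk, Prod.mk_sub_mk, hS, smul_zero,
      sub_zero, dotProduct_smul, smul_eq_mul, hanti, map_smul, LinearMap.smul_apply]
    refine Prod.ext ?_ (Prod.ext ?_ ?_)
    · simp only
      rw [hP, ← kN]
      simp only [smul_add]
    · simp only
      have k : s • (p ⨯₃ ξ) - -(s • ρ • (p ⨯₃ α)) = s • (p ⨯₃ ξ + ρ • (p ⨯₃ α)) := by module
      rw [k, kX]
      module
    · simp only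
      have k : s • (p ⨯₃ η) - -(s • ρ • ((q ⨯₃ p) ⨯₃ α)) =
        s • (p ⨯₃ η + ρ • ((q ⨯₃ p) ⨯₃ α)) := by module
      rw [k, kY]
      simp only [map_smul, LinearMap.smul_apply, map_add, LinearMap.add_apply]
      module
  rw [key, map_sub, map_smul, map_smul (fderiv ℝ f (uB (p, q))), e4, smul_zero, sub_zero,
    smul_eq_mul]

open scoped ContDiff in
theorem GE7_diff {f : R9 → ℝ} (hf : ContDiffOn ℝ ∞ f {0}ᶜ) {u : R9} (hu : u ≠ 0) :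
    DifferentiableAt ℝ f u :=
  (hf.contDiffAt (isOpen_compl_singleton.mem_nhds hu)).differentiableAt (by simp)

theorem uA_ne {z : R6} (hz : z ∈ base) : uA z ≠ 0 := by
  intro h
  have h1 : z.1 = 0 := congrArg (fun u : R9 => u.1) h
  have h2 : z.2 = 0 := congrArg (fun u : R9 => u.2.1) h
  have h3 := hz.2
  rw [h1, h2] at h3
  simp at h3

theorem uB_ne {z : R6} (h0 : z.1 ≠ 0) : uB z ≠ 0 := by
  intro h
  have h1 : (Real.sqrt 2)⁻¹ • z.1 = 0 := congrArg (fun u : R9 => u.1) h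
  exact h0 ((smul_eq_zero.1 h1).resolve_left (by positivity))

/-- **E-transfer at wall A** -/
theorem transfer_A {v f : R9 → ℝ} (hv : PhiM v) (hf : PhiM f) {z : R6} (hz : z ∈ base) :
    ED v f (uA z) = XD (fun w => v (uA w)) (fun w => f (uA w)) z :=
  transfer_A' (GE7_diff hv.smooth (uA_ne hz)) (GE7_diff hf.smooth (uA_ne hz)) hv.inv hf.inv hz.1

/-- **E-transfer at wall B** -/
theorem transfer_B {v f : R9 → ℝ} (hv : PhiM v) (hf : PhiM f) {z : R6} (hz : z ∈ base)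
    (h0 : z.1 ≠ 0) :
    ED v f (uB z) = Real.sqrt 2 * XD (fun w => v (uB w)) (fun w => f (uB w)) z :=
  transfer_B' (GE7_diff hv.smooth (uB_ne h0)) (GE7_diff hf.smooth (uB_ne h0)) hv.inv hf.inv
    hz.1 hz.2 h0

end Pool.Agent.FL.S2
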